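import Pool.Agent.Helper47.EP.Goals

/-!
# Packet EP-TAU (MP_5b9a11_al)
-/

set_option autoImplicit false

namespace Pool.Agent.Helper45.EP.TAU

open MonoidAlgebra IsLocalRing Pool.Agent.Helper17.PF Pool.Agent.Helper47.EP

noncomputable section

/-! ## Orbits of the action of `ZMod p` -/

section orbit

variable {p : ℕ} [hp : Fact p.Prime] {G : Type} (a : ZMod p → G → G)

theorem fixed_of {a : ZMod p → G → G} (h0 : ∀ g, a 0 g = g)
    (hadd : ∀ k l g, a (k + l) g = a k (a l g)) {u : ZMod p} (hu : u ≠ 0) {g : G}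
    (hg : a u g = g) : a 1 g = g := by
  have h1 : ∀ n : ℕ, a (n * u) g = g := by
    intro n
    induction n with
    | zero => rw [Nat.cast_zero, zero_mul, h0]
    | succ n ih => rw [Nat.cast_succ, add_mul, one_mul, hadd, hg, ih]
  have h2 := h1 (u⁻¹).val
  rwa [ZMod.natCast_zmod_val, inv_mul_cancel₀ hu] at h2

/-- Every invariant function whose values at the fixed points are divisible by `p` is a sum over
the orbits. -/
theorem orbit_sum {R : Type} [CommRing R] (h0 : ∀ g, a 0 g = g)
    (hadd : ∀ k l g, a (k + l) g = a k (a l g)) (d : G → R) (hd : ∀ g, d (a 1 g) = d g)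
    (hc : ∀ g, a 1 g = g → ∃ c, d g = (p : R) * c) :
    ∃ y : G → R, ∀ g, d g = ∑ k : ZMod p, y (a (-k) g) := by
  classical
  have hdk : ∀ (k : ZMod p) g, d (a k g) = d g := by
    intro k g
    have h1 : ∀ n : ℕ, d (a n g) = d g := by
      intro n
      induction n with
      | zero => rw [Nat.cast_zero, h0]
      | succ n ih => rw [Nat.cast_succ, add_comm, hadd, hd, ih]
    have h2 := h1 k.val
    rwa [ZMod.natCast_zmod_val] at h2
  have hfix : ∀ g, a 1 g = g → ∀ k, a k g = g := by
    intro g hg k
    have h1 : ∀ n : ℕ, a n g = g := by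
      intro n
      induction n with
      | zero => rw [Nat.cast_zero, h0]
      | succ n ih => rw [Nat.cast_succ, hadd, hg, ih]
    have h2 := h1 k.val
    rwa [ZMod.natCast_zmod_val] at h2
  choose! c hc' using hc
  let S : Setoid G :=
    { r := fun g g' => ∃ k, a k g = g'
      iseqv :=
        ⟨fun g => ⟨0, h0 g⟩, fun {g g'} ⟨k, hk⟩ => ⟨-k, by rw [← hk, ← hadd, neg_add_cancel, h0]⟩,
          fun {g g' g''} ⟨k, hk⟩ ⟨l, hl⟩ => ⟨l + k, by rw [hadd, hk, hl]⟩⟩ }
  let rep : G → G := fun g => (Quotient.mk S g).out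
  have hrep1 : ∀ g, ∃ m, a m g = rep g := by
    intro g
    have h : S.r (rep g) g := Quotient.mk_out (s := S) g
    obtain ⟨k, hk⟩ := h
    exact ⟨-k, by rw [← hk, ← hadd, neg_add_cancel, h0, hk]⟩
  have hrep2 : ∀ g k, rep (a k g) = rep g := by
    intro g k
    show (Quotient.mk S (a k g)).out = (Quotient.mk S g).out
    have h : Quotient.mk S (a k g) = Quotient.mk S g := by
      refine Quotient.sound (s := S) ?_
      exact ⟨-k, by rw [← hadd, neg_add_cancel, h0]⟩
    rw [h]
  refine ⟨fun g => if a 1 g = g then c g else if g = rep g then d g else 0, fun g => ?_⟩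
  by_cases hg : a 1 g = g
  · have h1 : ∀ k : ZMod p, (if a 1 (a (-k) g) = a (-k) g then c (a (-k) g) else
        if a (-k) g = rep (a (-k) g) then d (a (-k) g) else 0) = c g := by
      intro k
      rw [hfix g hg, if_pos hg]
    rw [Finset.sum_congr rfl fun k _ => h1 k, Finset.sum_const, Finset.card_univ, ZMod.card,
      nsmul_eq_mul]
    exact hc' g hg
  · have hng : ∀ k, ¬ a 1 (a k g) = a k g := by
      intro k hk
      apply hg
      have h1 := congrArg (a (-k)) hk
      rw [← hadd, ← hadd, ← hadd] at h1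
      rw [show -k + 1 + k = 1 by ring, neg_add_cancel, h0] at h1
      exact h1
    obtain ⟨m, hm⟩ := hrep1 g
    have h1 : ∀ k : ZMod p, (if a 1 (a (-k) g) = a (-k) g then c (a (-k) g) else
        if a (-k) g = rep (a (-k) g) then d (a (-k) g) else 0) = if k = -m then d g else 0 := by
      intro k
      rw [if_neg (hng _), hrep2, hdk]
      congr 1
      apply propext
      constructor
      · intro h
        by_contra hne
        apply hg
        refine fixed_of h0 hadd (u := -m + -k) ?_ ?_
        · intro h2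
          apply hne
          linear_combination -h2
        · rw [hadd, h, ← hm, ← hadd, neg_add_cancel, h0]
      · intro h
        rw [h, neg_neg, hm]
    rw [Finset.sum_congr rfl fun k _ => h1 k, Finset.sum_ite_eq' Finset.univ (-m)]
    simp

end orbit

/-! ## Linear algebra -/

theorem free_range {R : Type} [CommRing R] [IsLocalRing R] {M : Type} [AddCommGroup M] [Module R M]
    [Module.Free R M] [Module.Finite R M] (F : Module.End R M) (hF : F * F = F) :
    Module.Free R (LinearMap.range F) := by
  have h1 : Module.Projective R (LinearMap.range F) := by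
    refine Module.Projective.of_split (LinearMap.range F).subtype F.rangeRestrict ?_
    ext ⟨x, hx⟩
    obtain ⟨y, rfl⟩ := hx
    exact LinearMap.congr_fun hF y
  have h2 : Module.Finite R (LinearMap.range F) := Module.Finite.range F
  exact Module.free_of_flat_of_isLocalRing

/-- The trace of the left multiplication. -/
theorem trace_mulLeft {R : Type} [CommRing R] {L : Type} [Group L] [Fintype L]
    (x : MonoidAlgebra R L) :
    LinearMap.trace R (MonoidAlgebra R L) (LinearMap.mulLeft R x) =
      (Fintype.card L : R) * x.coeff 1 := by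
  classical
  rw [LinearMap.trace_eq_matrix_trace R (MonoidAlgebra.basis L R), Matrix.trace]
  have h : ∀ g : L, (LinearMap.toMatrix (MonoidAlgebra.basis L R) (MonoidAlgebra.basis L R)
      (LinearMap.mulLeft R x)).diag g = x.coeff 1 := by
    intro g
    rw [Matrix.diag_apply, LinearMap.toMatrix_apply, MonoidAlgebra.basis_apply,
      LinearMap.mulLeft_apply]
    show (x * single g 1).coeff g = x.coeff 1
    rw [MonoidAlgebra.coeff_mul_single_eq_coeff_mul (m₂ := 1), mul_one]
    intro m' _
    rw [mul_eq_right]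
  rw [Finset.sum_congr rfl fun g _ => h g, Finset.sum_const, Finset.card_univ, nsmul_eq_mul]

/-! ## Maps between the right ideals of idempotents -/

section homs

variable {R : Type} [CommRing R] {B : Type} [Ring B] [Algebra R B]

/-- the map `x ↦ i' u x` from `i B` to `i' B` -/
def hom (i i' u : B) :
    LinearMap.range (LinearMap.mulLeft R i) →ₗ[R] LinearMap.range (LinearMap.mulLeft R i') :=
  ((LinearMap.mulLeft R i').rangeRestrict ∘ₗ LinearMap.mulLeft R u) ∘ₗ
    (LinearMap.range (LinearMap.mulLeft R i)).subtype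

theorem hom_apply (i i' u : B) (x : LinearMap.range (LinearMap.mulLeft R i)) :
    (hom (R := R) i i' u x : B) = i' * (u * x) := rfl

theorem mem_eq {i : B} (hi : i * i = i) (x : LinearMap.range (LinearMap.mulLeft R i)) :
    i * (x : B) = x := by
  obtain ⟨x, ⟨y, rfl⟩⟩ := x
  show i * (i * y) = i * y
  rw [← mul_assoc, hi]

theorem hom_pow {i r : B} (hi : i * i = i) (hr : r * i = i * r) (n : ℕ)
    (x : LinearMap.range (LinearMap.mulLeft R i)) :
    ((hom (R := R) i i r ^ n) x : B) = r ^ n * x := by
  induction n generalizing x with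
  | zero => rw [pow_zero, pow_zero, one_mul]; rfl
  | succ n ih =>
    rw [pow_succ, Module.End.mul_apply, ih, hom_apply, pow_succ, mul_assoc]
    congr 1
    rw [← mul_assoc, ← hr, mul_assoc, mem_eq hi]

theorem trace_hom [Module.Free R B] [Module.Finite R B] {i r : B}
    [Module.Free R (LinearMap.range (LinearMap.mulLeft R i))]
    [Module.Finite R (LinearMap.range (LinearMap.mulLeft R i))] :
    LinearMap.trace R _ (hom (R := R) i i r) =
      LinearMap.trace R B (LinearMap.mulLeft R (r * i)) := by
  have h1 : hom (R := R) i i r = (LinearMap.mulLeft R i).rangeRestrict ∘ₗ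
    (LinearMap.mulLeft R r ∘ₗ (LinearMap.range (LinearMap.mulLeft R i)).subtype) := rfl
  rw [h1, LinearMap.trace_comp_comm']
  congr 1
  ext x
  show r * (i * x) = r * i * x
  rw [mul_assoc]

end homs

theorem sum_range_zmod {p : ℕ} [Fact p.Prime] {M : Type} [AddCommMonoid M] (f : ZMod p → M) :
    ∑ k ∈ Finset.range p, f (k : ZMod p) = ∑ k : ZMod p, f k := by
  refine Finset.sum_bij' (fun k _ => (k : ZMod p)) (fun k _ => k.val) (fun k _ => Finset.mem_univ _)
    (fun k _ => Finset.mem_range.2 (ZMod.val_lt k)) (fun k hk => ?_) (fun k _ => ?_)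
    (fun k _ => rfl)
  · exact ZMod.val_cast_of_lt (Finset.mem_range.1 hk)
  · exact ZMod.natCast_zmod_val k

/-- the trace argument in an algebra -/
theorem abstract_trace (hMB : S_MB) {p : ℕ} [Fact p.Prime] {R : Type} [CommRing R] [IsLocalRing R]
    (hpm : (p : R) ∈ maximalIdeal R) {B : Type} [Ring B] [Algebra R B] [Module.Free R B]
    [Module.Finite R B] {i i' e y : B} (rr : ZMod p → B) (hi : i * i = i) (hi' : i' * i' = i')
    (hei : e * i = i) (hei' : e * i' = i') (hec : ∀ x, e * x = x * e)
    (hrr : ∀ k l, rr k * rr l = rr (k + l))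
    (hr0 : rr 0 = e) (hri : rr 1 * i = i * rr 1) (hri' : rr 1 * i' = i' * rr 1)
    (hd : i - i' = ∑ k, rr k * y * rr (-k)) :
    LinearMap.trace R B (LinearMap.mulLeft R (rr 1 * i)) =
      LinearMap.trace R B (LinearMap.mulLeft R (rr 1 * i')) := by
  have hF : (LinearMap.mulLeft R i : Module.End R B) * LinearMap.mulLeft R i =
      LinearMap.mulLeft R i := by
    ext x
    show i * (i * x) = i * x
    rw [← mul_assoc, hi]
  have hF' : (LinearMap.mulLeft R i' : Module.End R B) * LinearMap.mulLeft R i' =
      LinearMap.mulLeft R i' := by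
    ext x
    show i' * (i' * x) = i' * x
    rw [← mul_assoc, hi']
  have := free_range _ hF
  have := free_range _ hF'
  have : Module.Finite R (LinearMap.range (LinearMap.mulLeft R i)) := Module.Finite.range _
  have : Module.Finite R (LinearMap.range (LinearMap.mulLeft R i')) := Module.Finite.range _
  have hpow : ∀ n : ℕ, rr 1 ^ n * e = rr n := by
    intro n
    induction n with
    | zero => rw [pow_zero, one_mul, Nat.cast_zero, hr0]
    | succ n ih => rw [pow_succ', mul_assoc, ih, hrr, Nat.cast_succ, add_comm]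
  have hpe : ∀ (n : ℕ) (x : B), e * x = x → rr 1 ^ n * x = rr n * x := by
    intro n x hx
    rw [← hpow, mul_assoc, hx]
  have he1 : ∀ k, e * rr k = rr k := fun k => by rw [← hr0, hrr, zero_add]
  have hki : ∀ {c : B}, e * c = c → rr 1 * c = c * rr 1 → ∀ k : ZMod p, rr k * c = c * rr k := by
    intro c hec' hc k
    have h1 : ∀ n : ℕ, rr n * c = c * rr n := by
      intro n
      induction n with
      | zero => rw [Nat.cast_zero, hr0, hec]
      | succ n ih => rw [Nat.cast_succ, ← hrr, mul_assoc, hc, ← mul_assoc, ih, mul_assoc]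
    have h2 := h1 k.val
    rwa [ZMod.natCast_zmod_val] at h2
  -- the main computation
  have hmain : ∀ {c c' w : B}, c * c = c → e * c = c → rr 1 * c = c * rr 1 →
      c - c' = ∑ k, rr k * w * rr (-k) →
      ∀ x : LinearMap.range (LinearMap.mulLeft R c), c * ((c - c') * (x : B)) =
        ∑ k ∈ Finset.range p, ((hom (R := R) c c (rr 1) ^ k * hom (R := R) c c w *
          hom (R := R) c c (rr 1) ^ (p - k)) x : B) := by
    intro c c' w hcc hec' hc hdd x
    have hx : e * (x : B) = x := by rw [← mem_eq hcc x, ← mul_assoc, hec']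
    rw [hdd, Finset.sum_mul, Finset.mul_sum,
      ← sum_range_zmod fun k : ZMod p => c * (rr k * w * rr (-k) * (x : B))]
    refine Finset.sum_congr rfl fun k hk => ?_
    rw [Module.End.mul_apply, Module.End.mul_apply, hom_pow hcc hc, hom_apply, hom_pow hcc hc]
    have h1 : ((p - k : ℕ) : ZMod p) = -(k : ZMod p) := by
      rw [Nat.cast_sub (Finset.mem_range.1 hk).le, ZMod.natCast_self, zero_sub]
    rw [hpe (p - k) _ hx, h1, hpe k]
    · simp only [← mul_assoc]
      rw [hki hec' hc]
    · rw [← mul_assoc, hec']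
  have h := hMB p R hpm (LinearMap.range (LinearMap.mulLeft R i))
    (LinearMap.range (LinearMap.mulLeft R i')) (hom (R := R) i i (rr 1)) (hom (R := R) i i y)
    (hom (R := R) i' i' (rr 1)) (hom (R := R) i' i' (-y)) (hom (R := R) i i' 1)
    (hom (R := R) i' i 1) ?_ ?_ ?_ ?_ ?_ ?_
  · rw [← trace_hom, ← trace_hom, h]
  · ext x
    rw [hom_pow hi hri, hpe, ZMod.natCast_self, hr0]
    · show e * (x : B) = x
      rw [← mem_eq hi x, ← mul_assoc, hei]
    · rw [← mem_eq hi x, ← mul_assoc, hei]
  · ext x
    rw [hom_pow hi' hri', hpe, ZMod.natCast_self, hr0]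
    · show e * (x : B) = x
      rw [← mem_eq hi' x, ← mul_assoc, hei']
    · rw [← mem_eq hi' x, ← mul_assoc, hei']
  · ext x
    show i' * (rr 1 * (i' * (1 * (x : B)))) = i' * (1 * (i * (rr 1 * (x : B))))
    rw [one_mul, one_mul, ← mul_assoc i (rr 1), ← hri, mul_assoc, mem_eq hi, ← mul_assoc (rr 1) i',
      hri', ← mul_assoc i' (i' * rr 1), ← mul_assoc i' i', hi', mul_assoc]
  · ext x
    show i * (rr 1 * (i * (1 * (x : B)))) = i * (1 * (i' * (rr 1 * (x : B))))
    rw [one_mul, one_mul, ← mul_assoc i' (rr 1), ← hri', mul_assoc, mem_eq hi', ← mul_assoc (rr 1) i,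
      hri, ← mul_assoc i (i * rr 1), ← mul_assoc i i, hi, mul_assoc]
  · ext x
    have h1 := hmain hi hei hri hd x
    rw [LinearMap.sum_apply, Submodule.coe_sum]
    refine Eq.trans ?_ h1
    show (x : B) - i * (1 * (i' * (1 * (x : B)))) = i * ((i - i') * (x : B))
    rw [one_mul, one_mul, sub_mul, mul_sub, mem_eq hi, mem_eq hi]
  · ext x
    have hd' : i' - i = ∑ k, rr k * (-y) * rr (-k) := by
      rw [← neg_sub, hd, ← Finset.sum_neg_distrib]
      refine Finset.sum_congr rfl fun k _ => ?_
      rw [mul_neg, neg_mul]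
    have h1 := hmain hi' hei' hri' hd' x
    rw [LinearMap.sum_apply, Submodule.coe_sum]
    refine Eq.trans ?_ h1
    show (x : B) - i' * (1 * (i * (1 * (x : B)))) = i' * ((i' - i) * (x : B))
    rw [one_mul, one_mul, sub_mul, mul_sub, mem_eq hi', mem_eq hi']

/-! ## The automorphisms of the group algebra -/

section sigma

variable {p : ℕ} [Fact p.Prime] {T : Dat p} {A : Type} [Fintype A] [DecidableEq A]
  {R : Type} [CommRing R]

/-- the automorphism of the group algebra induced by `ta j` -/
def sg (R : Type) [CommRing R] (j : A → ZMod p) :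
    MonoidAlgebra R (Hs T A) ≃+* MonoidAlgebra R (Hs T A) :=
  MonoidAlgebra.mapDomainRingEquiv R (ta j)

omit [Fact p.Prime] in
theorem sg_single (j : A → ZMod p) (g : Hs T A) (r : R) :
    sg R j (single g r) = single (ta j g) r :=
  MonoidAlgebra.mapDomainRingEquiv_single _ _ _

theorem sg_coeff (j : A → ZMod p) (x : MonoidAlgebra R (Hs T A)) (g : Hs T A) :
    (sg R j x).coeff g = x.coeff (ta (-j) g) := by
  have h1 : (ta j).symm g = ta (-j) g := by
    apply (ta j).injective
    rw [MulEquiv.apply_symm_apply, ← ta_add, add_neg_cancel, ta_zero]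
  rw [← h1]
  unfold sg
  rw [MonoidAlgebra.coeff_mapDomainRingEquiv]
  rfl

theorem sg_ee (C : Chr T R) (j : A → ZMod p) : sg R j (ee C A) = ee C A := by
  have h0 : ∀ z : ZMod T.l, ta j (⟨0, z⟩ : Hs T A) = ⟨0, z⟩ := by
    intro z
    ext1
    · funext a
      rw [ta_v]
      exact map_zero _
    · rfl
  have hs : ∀ (c : R) (x : MonoidAlgebra R (Hs T A)), sg R j (c • x) = c • sg R j x := by
    intro c x
    ext g
    rw [sg_coeff]
    show c • x.coeff (ta (-j) g) = c • (sg R j x).coeff g
    rw [sg_coeff]
  unfold ee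
  rw [hs, map_sum]
  congr 1
  refine Finset.sum_congr rfl fun z _ => ?_
  rw [sg_single, h0]

theorem sg_comm (C : Chr T R) (hRHO : S_RHO) (j : A → ZMod p) (x : MonoidAlgebra R (Hs T A)) :
    sg R j x * rho C j = rho C j * x := by
  have h4 := (hRHO p T A R C).2.2.2.1 j
  induction x using MonoidAlgebra.induction_linear with
  | zero => rw [map_zero, zero_mul, mul_zero]
  | add x y hx hy => rw [map_add, add_mul, mul_add, hx, hy]
  | single g r =>
    rw [sg_single]
    have h1 : (single (ta j g) r : MonoidAlgebra R (Hs T A)) = r • single (ta j g) (1 : R) := by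
      rw [MonoidAlgebra.smul_single, smul_eq_mul, mul_one]
    have h2 : (single g r : MonoidAlgebra R (Hs T A)) = r • single g (1 : R) := by
      rw [MonoidAlgebra.smul_single, smul_eq_mul, mul_one]
    rw [h1, h2, smul_mul_assoc, mul_smul_comm, h4]

end sigma

theorem card_unit {p : ℕ} [Fact p.Prime] {T : Dat p} {A : Type} [Fintype A] [DecidableEq A]
    {R : Type} [CommRing R] (C : Chr T R) : IsUnit ((Fintype.card (Hs T A) : ℕ) : R) := by
  have h1 : Fintype.card (Hs T A) = (T.l ^ 2) ^ Fintype.card A * T.l := by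
    rw [Fintype.card_congr (Hs.equiv T A), Fintype.card_prod, Fintype.card_fun, T.card, ZMod.card]
  have h2 : IsUnit (T.l : R) := IsUnit.of_mul_eq_one C.il (by rw [mul_comm, C.il_mul])
  rw [h1]
  push_cast
  exact ((h2.pow 2).pow _).mul h2

/-- PACKET TAU. -/
theorem t (hMB : S_MB) (hHB : S_HB) (hRHO : S_RHO) : S_TAU := by
  intro p _ T A _ _ R _ _ C hmax j i i' hi hi' hei hei' hinv hinv' hres
  obtain ⟨hee, hcent, -⟩ := hHB p T A R C
  obtain ⟨he, h0, hmul, h4, -⟩ := hRHO p T A R C
  have hpm : (p : R) ∈ maximalIdeal R := by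
    rw [hmax]
    exact Ideal.mem_span_singleton_self _
  -- the orbit sum
  obtain ⟨y, hy⟩ := orbit_sum (p := p) (G := Hs T A) (fun k g => ta (k • j) g)
    (fun g => by rw [zero_smul, ta_zero]) (fun k l g => by rw [add_smul, ta_add])
    (fun g => (i - i').coeff g)
    (fun g => by
      rw [one_smul]
      show i.coeff (ta j g) - i'.coeff (ta j g) = i.coeff g - i'.coeff g
      rw [hinv, hinv'])
    (fun g hg => by
      rw [one_smul] at hg
      have h1 : residue R (i.coeff g - i'.coeff g) = 0 := by
        rw [map_sub, hres g hg, sub_self]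
      rw [residue_eq_zero_iff, hmax, Ideal.mem_span_singleton] at h1
      exact h1)
  let Y : MonoidAlgebra R (Hs T A) := ofCoeff (Finsupp.equivFunOnFinite.symm y)
  have hsum : i - i' = ∑ k : ZMod p, sg R (k • j) Y := by
    ext g
    rw [hy g, MonoidAlgebra.coeff_sum, Finsupp.finsetSum_apply]
    refine Finset.sum_congr rfl fun k _ => ?_
    rw [sg_coeff, neg_smul]
    rfl
  have hsum2 : i - i' = ∑ k : ZMod p, rho C (k • j) * (ee C A * Y) * rho C (-k • j) := by
    have h1 : i - i' = ee C A * (i - i') := by rw [mul_sub, hei, hei']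
    rw [h1, hsum, Finset.mul_sum]
    refine Finset.sum_congr rfl fun k _ => ?_
    rw [← sg_comm C hRHO, mul_assoc, hmul, neg_smul, add_neg_cancel, h0, map_mul, sg_ee, mul_assoc,
      ← hcent (sg R (k • j) Y), ← mul_assoc, hee]
  have hc : ∀ c : MonoidAlgebra R (Hs T A), (∀ g, c.coeff (ta j g) = c.coeff g) →
      rho C j * c = c * rho C j := by
    intro c hc
    rw [← sg_comm C hRHO]
    congr 1
    ext g
    rw [sg_coeff, ← hc, ← ta_add, add_neg_cancel, ta_zero]
  have htr := abstract_trace hMB hpm (e := ee C A) (y := ee C A * Y) (fun k : ZMod p => rho C (k • j))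
    hi hi' hei hei' hcent (fun k l => by rw [hmul, add_smul]) (by rw [zero_smul, h0])
    (by rw [one_smul]; exact hc i hinv) (by rw [one_smul]; exact hc i' hinv') hsum2
  rw [one_smul, trace_mulLeft, trace_mulLeft] at htr
  exact (card_unit C).mul_left_cancel htr

end

end Pool.Agent.Helper45.EP.TAU
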